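import Pool.Agent.helper52.IR.Spec

/-!
# MP_07c750, project IR, row NUM: the exponents
-/

open scoped MatrixGroups ContDiff Topology UpperHalfPlane ComplexConjugate
open UpperHalfPlane MeasureTheory Filter Set

set_option autoImplicit false

namespace Pool.Agent.IR

open Pool.Agent.RS

noncomputable section

/-- the energy bound as a sum of three exponentials -/
theorem NUM_EB (C p s0 s1 q a b : ℝ) (hC : 0 < C) (hq : p = 2 * q) :
    EB (Real.exp (a * (2 * p))) (Real.exp (a * p)) (Real.exp (a * (2 * p - s1))) (C * Real.exp (b * (3 * p) - 3 * p)) (C * Real.exp (b * (3 * p - s0) - 3 * p))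
      (C * Real.exp (b * (2 * p) - 3 * p)) p s1 (Real.exp (-s0)) (Real.exp q) ≤
    C ^ 2 * Real.exp (6 * p * (a + b - 1) - b * s0) + C ^ 2 * Real.exp (p * (5 * a + 11 / 2 * b - 21 / 4) + s0 + s1 / 2) +
      C ^ 2 * Real.exp (p * (11 / 2 * (a + b - 1)) + s0 / 2 - a * s1 / 2) := by
  unfold EB
  have hR : Real.exp q = Real.exp (p / 2) := by rw [hq]; congr 1; ring
  -- the inside of the root
  have e1 : C * Real.exp (b * (3 * p) - 3 * p) * (C * Real.exp (b * (2 * p) - 3 * p)) * (Real.exp p / Real.exp (-s0)) *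
      (Real.exp (a * (2 * p)) ^ 2 * Real.exp (a * p) ^ 2 * Real.exp (p + s1) / (Real.exp (-s0) * Real.exp q) + Real.exp (a * (2 * p)) * Real.exp (a * (2 * p - s1)) * Real.exp (a * p) ^ 3) =
      (C * Real.exp ((5 * p * b - 5 * p + s0) / 2 + (6 * p * a + p / 2 + s1 + s0) / 2)) ^ 2 + (C * Real.exp ((5 * p * b - 5 * p + s0) / 2 + (7 * p * a - a * s1) / 2)) ^ 2 := by
    rw [hR, mul_pow, mul_pow, ← Real.exp_sub, ← Real.exp_add (-s0), ← Real.exp_nat_mul, ← Real.exp_nat_mul, ← Real.exp_nat_mul, ← Real.exp_nat_mul, ← Real.exp_nat_mul, ← Real.exp_add, ← Real.exp_add, ← Real.exp_sub, ← Real.exp_add, ← Real.exp_add]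
    have f1 : C * Real.exp (b * (3 * p) - 3 * p) * (C * Real.exp (b * (2 * p) - 3 * p)) * Real.exp (p - -s0) =
        C ^ 2 * Real.exp (b * (3 * p) - 3 * p + (b * (2 * p) - 3 * p) + (p - -s0)) := by
      rw [Real.exp_add, Real.exp_add]; ring
    rw [f1, mul_add, mul_assoc, mul_assoc, ← Real.exp_add, ← Real.exp_add]
    congr 3
    · push_cast; ring
    · push_cast; ring
  have e2 : Real.sqrt (C * Real.exp (b * (3 * p) - 3 * p) * (C * Real.exp (b * (2 * p) - 3 * p)) * (Real.exp p / Real.exp (-s0)) *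
      (Real.exp (a * (2 * p)) ^ 2 * Real.exp (a * p) ^ 2 * Real.exp (p + s1) / (Real.exp (-s0) * Real.exp q) + Real.exp (a * (2 * p)) * Real.exp (a * (2 * p - s1)) * Real.exp (a * p) ^ 3)) ≤
      C * Real.exp ((5 * p * b - 5 * p + s0) / 2 + (6 * p * a + p / 2 + s1 + s0) / 2) + C * Real.exp ((5 * p * b - 5 * p + s0) / 2 + (7 * p * a - a * s1) / 2) := by
    rw [e1]
    have h1 : 0 ≤ C * Real.exp ((5 * p * b - 5 * p + s0) / 2 + (6 * p * a + p / 2 + s1 + s0) / 2) := by positivity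
    have h2 : 0 ≤ C * Real.exp ((5 * p * b - 5 * p + s0) / 2 + (7 * p * a - a * s1) / 2) := by positivity
    rw [Real.sqrt_le_left (add_nonneg h1 h2)]
    nlinarith [mul_nonneg h1 h2]
  have e3 : Real.exp (a * (2 * p)) * (Real.exp (a * (2 * p)) * Real.exp (a * p) ^ 2 * (C * Real.exp (b * (3 * p) - 3 * p) * (C * Real.exp (b * (3 * p - s0) - 3 * p)))) =
      C ^ 2 * Real.exp (6 * p * (a + b - 1) - b * s0) := by
    rw [← Real.exp_nat_mul]
    have f1 : Real.exp (a * (2 * p)) * (Real.exp (a * (2 * p)) * Real.exp (((2 : ℕ) : ℝ) * (a * p)) * (C * Real.exp (b * (3 * p) - 3 * p) * (C * Real.exp (b * (3 * p - s0) - 3 * p)))) =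
        C ^ 2 * Real.exp (a * (2 * p) + a * (2 * p) + ((2 : ℕ) : ℝ) * (a * p) + (b * (3 * p) - 3 * p) + (b * (3 * p - s0) - 3 * p)) := by
      rw [Real.exp_add, Real.exp_add, Real.exp_add, Real.exp_add]; ring
    rw [f1]
    congr 2
    push_cast
    ring
  have e4 : Real.exp (a * (2 * p)) * (C * Real.exp (b * (3 * p) - 3 * p) * (C * Real.exp ((5 * p * b - 5 * p + s0) / 2 + (6 * p * a + p / 2 + s1 + s0) / 2))) =
      C ^ 2 * Real.exp (p * (5 * a + 11 / 2 * b - 21 / 4) + s0 + s1 / 2) := by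
    have f1 : Real.exp (a * (2 * p)) * (C * Real.exp (b * (3 * p) - 3 * p) * (C * Real.exp ((5 * p * b - 5 * p + s0) / 2 + (6 * p * a + p / 2 + s1 + s0) / 2))) =
        C ^ 2 * Real.exp (a * (2 * p) + (b * (3 * p) - 3 * p) + ((5 * p * b - 5 * p + s0) / 2 + (6 * p * a + p / 2 + s1 + s0) / 2)) := by
      rw [Real.exp_add (a * (2 * p) + (b * (3 * p) - 3 * p)), Real.exp_add (a * (2 * p))]; ring
    rw [f1]
    congr 2
    ring
  have e5 : Real.exp (a * (2 * p)) * (C * Real.exp (b * (3 * p) - 3 * p) * (C * Real.exp ((5 * p * b - 5 * p + s0) / 2 + (7 * p * a - a * s1) / 2))) =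
      C ^ 2 * Real.exp (p * (11 / 2 * (a + b - 1)) + s0 / 2 - a * s1 / 2) := by
    have f1 : Real.exp (a * (2 * p)) * (C * Real.exp (b * (3 * p) - 3 * p) * (C * Real.exp ((5 * p * b - 5 * p + s0) / 2 + (7 * p * a - a * s1) / 2))) =
        C ^ 2 * Real.exp (a * (2 * p) + (b * (3 * p) - 3 * p) + ((5 * p * b - 5 * p + s0) / 2 + (7 * p * a - a * s1) / 2)) := by
      rw [Real.exp_add (a * (2 * p) + (b * (3 * p) - 3 * p)), Real.exp_add (a * (2 * p))]; ring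
    rw [f1]
    congr 2
    ring
  rw [← e3, ← e4, ← e5, mul_add, add_assoc, ← mul_add (Real.exp (a * (2 * p))) (C * Real.exp (b * (3 * p) - 3 * p) * _), ← mul_add (C * Real.exp (b * (3 * p) - 3 * p))]
  gcongr

/-- the numbers -/
theorem NUM_num (h ρ η p s0 s1 : ℝ) (h1 : 1 / 2 < h) (h2 : h < 1) (hρ : ρ = (1 - h) * (1 + (2 * h - 1) / 200)) (hη : η = (2 * h - 1) * (1 - h) / 1000)
    (hp : 0 ≤ p) (hs0 : s0 ≤ (2 * h - 1) * p / 16) (hs0' : (2 * h - 1) * p / 16 - 1 ≤ s0) (hs00 : 0 ≤ s0)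
    (hs1 : s1 ≤ (2 * h - 1) * p / 4) (hs1' : (2 * h - 1) * p / 4 - 1 ≤ s1) (hs10 : 0 ≤ s1) :
    6 * p * ((h + η) + (ρ + η) - 1) - (ρ + η) * s0 ≤ 2 - (2 * h - 1) * (1 - h) / 100 * p ∧
    p * (5 * (h + η) + 11 / 2 * (ρ + η) - 21 / 4) + s0 + s1 / 2 ≤ 2 - (2 * h - 1) * (1 - h) / 100 * p ∧
    p * (11 / 2 * ((h + η) + (ρ + η) - 1)) + s0 / 2 - (h + η) * s1 / 2 ≤ 2 - (2 * h - 1) * (1 - h) / 100 * p := by
  set m := 2 * h - 1 with hm
  have hm0 : 0 < m := by linarith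
  have hm1 : m < 1 := by linarith
  have hk0 : 0 < 1 - h := by linarith
  have hk1 : 1 - h < 1 / 2 := by linarith
  have hmp : 0 ≤ m * p := by positivity
  have hmkp : 0 ≤ m * (1 - h) * p := by positivity
  have hmk : m * (1 - h) * p ≤ 1 / 2 * (m * p) := by nlinarith
  have hη0 : 0 < η := by rw [hη]; positivity
  have hρ1 : 1 - h ≤ ρ := by rw [hρ]; nlinarith
  have hρ0 : 0 < ρ := by linarith
  have hρ2 : ρ ≤ 1 := by rw [hρ]; nlinarith
  have hη1 : η ≤ 1 := by rw [hη]; nlinarith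
  have ea : (h + η) + (ρ + η) - 1 = 7 / 1000 * (m * (1 - h)) := by rw [hρ, hη]; ring
  refine ⟨?_, ?_, ?_⟩
  · rw [ea]
    have k1 : (ρ + η) * (m * p / 16 - 1) ≤ (ρ + η) * s0 := mul_le_mul_of_nonneg_left hs0' (by linarith)
    have k2 : (1 - h) * (m * p / 16) ≤ (ρ + η) * (m * p / 16) := mul_le_mul_of_nonneg_right (by linarith) (by positivity)
    nlinarith
  · have eb : 5 * (h + η) + 11 / 2 * (ρ + η) - 21 / 4 = -m / 4 + (11 / 400 + 105 / 10000) * (m * (1 - h)) := by rw [hρ, hη, hm]; ring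
    rw [eb]
    nlinarith
  · rw [ea]
    have k1 : 1 / 2 * s1 ≤ (h + η) * s1 := mul_le_mul_of_nonneg_right (by linarith) hs10
    nlinarith

theorem NUM_proof : NUM_stmt := by
  intro h ρ h1 h2 hρ
  refine ⟨(2 * h - 1) * (1 - h) / 1000, by
    have : 0 < 2 * h - 1 := by linarith
    have : 0 < 1 - h := by linarith
    positivity, ?_⟩
  intro C Q hC hQ
  set η := (2 * h - 1) * (1 - h) / 1000 with hη
  have hm0 : 0 < 2 * h - 1 := by linarith
  have hm1 : 2 * h - 1 < 1 := by linarith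
  have hk0 : 0 < 1 - h := by linarith
  set c := (2 * h - 1) * (1 - h) / 100 with hc
  have hc0 : 0 < c := by positivity
  have hC0 : 0 < C := by linarith
  obtain ⟨q0, hq0⟩ := exists_nat_ge ((1 - Real.log (Q / (2 * C ^ 2))) / c)
  refine ⟨q0, ?_⟩
  intro q s0 s1 hq hs0 hs1
  have hp0 : (0 : ℝ) ≤ 2 * (q : ℝ) := by positivity
  have a0 : (0 : ℝ) ≤ (2 * h - 1) * (2 * (q : ℝ)) / 16 := by positivity
  have a1 : (0 : ℝ) ≤ (2 * h - 1) * (2 * (q : ℝ)) / 4 := by positivity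
  have b0 : (s0 : ℝ) ≤ (2 * h - 1) * (2 * (q : ℝ)) / 16 := by rw [hs0]; exact Nat.floor_le a0
  have b1 : (s1 : ℝ) ≤ (2 * h - 1) * (2 * (q : ℝ)) / 4 := by rw [hs1]; exact Nat.floor_le a1
  have d0 : (2 * h - 1) * (2 * (q : ℝ)) / 16 - 1 ≤ s0 := by rw [hs0]; linarith [Nat.lt_floor_add_one ((2 * h - 1) * (2 * (q : ℝ)) / 16)]
  have d1 : (2 * h - 1) * (2 * (q : ℝ)) / 4 - 1 ≤ s1 := by rw [hs1]; linarith [Nat.lt_floor_add_one ((2 * h - 1) * (2 * (q : ℝ)) / 4)]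
  have hle : (2 * h - 1) * (2 * (q : ℝ)) ≤ 2 * (q : ℝ) := by nlinarith
  have f0 : s0 ≤ 2 * q := by
    have : (s0 : ℝ) ≤ ((2 * q : ℕ) : ℝ) := by push_cast; linarith
    exact_mod_cast this
  have f1 : s1 ≤ 2 * q := by
    have : (s1 : ℝ) ≤ ((2 * q : ℕ) : ℝ) := by push_cast; linarith
    exact_mod_cast this
  refine ⟨f0, f1, ?_⟩
  have hEB := NUM_EB C (2 * (q : ℝ)) s0 s1 q (h + η) (ρ + η) hC0 rfl
  obtain ⟨n1, n2, n3⟩ := NUM_num h ρ η (2 * (q : ℝ)) s0 s1 h1 h2 hρ rfl hp0 b0 d0 (Nat.cast_nonneg _) b1 d1 (Nat.cast_nonneg _)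
  have m1 := Real.exp_le_exp.2 n1
  have m2 := Real.exp_le_exp.2 n2
  have m3 := Real.exp_le_exp.2 n3
  have hqq : 1 - Real.log (Q / (2 * C ^ 2)) ≤ c * q := by
    have h3 : (1 - Real.log (Q / (2 * C ^ 2))) / c ≤ q := hq0.trans (by exact_mod_cast hq)
    rw [div_le_iff₀ hc0] at h3
    linarith
  have g1 : Real.exp (1 - c * q) ≤ Q / (2 * C ^ 2) := by
    have : 1 - c * q ≤ Real.log (Q / (2 * C ^ 2)) := by linarith
    have h4 := Real.exp_le_exp.2 this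
    rwa [Real.exp_log (by positivity)] at h4
  have g2 : Real.exp (2 - c * (2 * (q : ℝ))) = Real.exp (1 - c * q) ^ 2 := by
    rw [← Real.exp_nat_mul]
    congr 1
    push_cast
    ring
  have g3 : Real.exp (2 - c * (2 * (q : ℝ))) ≤ (Q / (2 * C ^ 2)) ^ 2 := by
    rw [g2]
    exact pow_le_pow_left₀ (Real.exp_pos _).le g1 2
  have hfin : C ^ 2 * Real.exp (6 * (2 * (q : ℝ)) * ((h + η) + (ρ + η) - 1) - (ρ + η) * s0) + C ^ 2 * Real.exp (2 * (q : ℝ) * (5 * (h + η) + 11 / 2 * (ρ + η) - 21 / 4) + s0 + s1 / 2) +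
      C ^ 2 * Real.exp (2 * (q : ℝ) * (11 / 2 * ((h + η) + (ρ + η) - 1)) + s0 / 2 - (h + η) * s1 / 2) ≤ (Q / C) ^ 2 := by
    have hCC : (0 : ℝ) ≤ C ^ 2 := by positivity
    have t1 := mul_le_mul_of_nonneg_left (m1.trans g3) hCC
    have t2 := mul_le_mul_of_nonneg_left (m2.trans g3) hCC
    have t3 := mul_le_mul_of_nonneg_left (m3.trans g3) hCC
    have t4 : C ^ 2 * (Q / (2 * C ^ 2)) ^ 2 = 1 / 4 * (Q / C) ^ 2 := by
      field_simp
      ring
    rw [t4] at t1 t2 t3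
    have : 0 ≤ (Q / C) ^ 2 := by positivity
    linarith
  have hs : Real.sqrt (EB (Real.exp ((h + η) * (2 * (2 * q)))) (Real.exp ((h + η) * (2 * q))) (Real.exp ((h + η) * (2 * (2 * q) - s1))) (C * Real.exp ((ρ + η) * (3 * (2 * q)) - 3 * (2 * q))) (C * Real.exp ((ρ + η) * (3 * (2 * q) - s0) - 3 * (2 * q)))
    (C * Real.exp ((ρ + η) * (2 * (2 * q)) - 3 * (2 * q))) (2 * q) s1 (Real.exp (-s0)) (Real.exp q)) ≤ Q / C := by
    rw [Real.sqrt_le_left (by positivity)]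
    exact hEB.trans hfin
  calc C * Real.sqrt _ ≤ C * (Q / C) := mul_le_mul_of_nonneg_left hs hC0.le
    _ = Q := by field_simp

end

end Pool.Agent.IR
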